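import Pool.Agent.H29.FL4.Stmts

/-!
Row DET of the board `fl4`
-/

set_option autoImplicit false

open Matrix MeasureTheory

namespace Pool.FL4

open Pool.FLT

namespace DET22

theorem r0 : r 0 = √2 := rfl

theorem r1 : r 1 = √2 := rfl

theorem r2 : r 2 = -√2 := rfl

theorem r3 : r 3 = -√2 := rfl

/-- `a + b √2 = 0 = a - b √2` -/
theorem two {a b : ℝ} (h1 : a + b * √2 = 0) (h2 : a - b * √2 = 0) : a = 0 ∧ b = 0 := by
  have h3 : a = 0 := by linarith
  have h4 : b * √2 = 0 := by linarith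
  have h5 : √2 ≠ 0 := by positivity
  exact ⟨h3, (mul_eq_zero.1 h4).resolve_right h5⟩

theorem vm (M : Matrix (Fin 4) (Fin 4) ℝ)
    (h : ∀ w : Fin 4 → ℝ, (∀ j, w 0 * M 0 j + w 1 * M 1 j + w 2 * M 2 j + w 3 * M 3 j = 0) →
      w 0 = 0 ∧ w 1 = 0 ∧ w 2 = 0 ∧ w 3 = 0) : M.det ≠ 0 := by
  intro h0
  obtain ⟨w, hw, hM⟩ := Matrix.exists_vecMul_eq_zero_iff.2 h0
  apply hw
  obtain ⟨a, b, c, d⟩ := h w fun j => by
    have := congrFun hM j
    simp only [Matrix.vecMul, dotProduct, Fin.sum_univ_four, Pi.zero_apply] at this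
    exact this
  funext j
  fin_cases j
  · exact a
  · exact b
  · exact c
  · exact d

end DET22

open DET22

theorem det (_ : SEQStmt) (hP : POSStmt) : DETStmt := by
  intro i hi
  obtain ⟨_, _, hy, hb, _, hy1, hy3, _, _, _, hb1, _, hb3, _⟩ := hP i hi
  have y0 := hy 0
  have y2 := hy 2
  have b0 := hb 0
  have b2 := hb 2
  refine ⟨vm _ fun w hw => ?_, fun s => vm _ fun w hw => ?_⟩
  · have h : ∀ j, w 0 + w 1 * r j + w 2 * yy i j + w 3 * (r j * yy i j) = 0 := fun j => by
      have := hw j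
      simp only [G0, Matrix.of_apply, Matrix.cons_val_zero, Matrix.cons_val_one,
        Matrix.cons_val] at this
      linarith
    have e0 := h 0
    have e1 := h 1
    have e2 := h 2
    have e3 := h 3
    rw [r0] at e0
    rw [r1, hy1] at e1
    rw [r2] at e2
    rw [r3, hy3] at e3
    have f1 : w 0 + w 1 * √2 = 0 := by linarith
    have f2 : w 0 - w 1 * √2 = 0 := by linarith
    have f3 : (w 2 + w 3 * √2) * yy i 0 = 0 := by linarith
    have f4 : (w 2 - w 3 * √2) * yy i 2 = 0 := by linarith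
    have f5 := (mul_eq_zero.1 f3).resolve_right y0
    have f6 := (mul_eq_zero.1 f4).resolve_right y2
    exact ⟨(two f1 f2).1, (two f1 f2).2, (two f5 f6).1, (two f5 f6).2⟩
  · have h : ∀ j, (w 0 + w 1 * r j) * (yy i j - s) + (w 2 + w 3 * r j) * be i j = 0 := fun j => by
      have := hw j
      simp only [Gs, Matrix.of_apply, Matrix.cons_val_zero, Matrix.cons_val_one,
        Matrix.cons_val] at this
      linarith
    have e0 := h 0
    have e1 := h 1
    have e2 := h 2
    have e3 := h 3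
    rw [r0] at e0
    rw [r1, hy1, hb1] at e1
    rw [r2] at e2
    rw [r3, hy3, hb3] at e3
    have f1 : (w 0 + w 1 * √2) * yy i 0 = 0 := by linarith
    have f2 : (w 0 - w 1 * √2) * yy i 2 = 0 := by linarith
    have f3 := (mul_eq_zero.1 f1).resolve_right y0
    have f4 := (mul_eq_zero.1 f2).resolve_right y2
    have f5 : (w 2 + w 3 * √2) * be i 0 = 0 := by
      rw [f3, zero_mul, zero_add] at e0
      exact e0
    have f6 : (w 2 - w 3 * √2) * be i 2 = 0 := by
      have : w 0 + w 1 * -√2 = 0 := by linarith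
      rw [this, zero_mul, zero_add] at e2
      linarith
    have f7 := (mul_eq_zero.1 f5).resolve_right b0
    have f8 := (mul_eq_zero.1 f6).resolve_right b2
    exact ⟨(two f3 f4).1, (two f3 f4).2, (two f7 f8).1, (two f7 f8).2⟩

end Pool.FL4
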